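import Pool.Agent.H942.KC.Proj
import Pool.Graph.R_pool_sql_team_seeded_5cf16337.K3h15.DM.Roots
import Pool.Graph.R_pool_sql_team_seeded_5cf16337.K3h15.DM.Exp

set_option autoImplicit false

/-! The functionals with a fractional power of the product of the roots. -/

namespace Pool.Agent.H942.KC

open MvPolynomial
open Pool.Agent.K3h15.DM

section IBP

variable {n : ℕ} {e : ℕ} {i0 : Fin n}

/-- Partial integration for a functional with the weight `X_0 ^ α`. -/
def IBPa (F : MvPolynomial (Fin n) ℂ) (i0 : Fin n) (w : Fin n → MvPolynomial (Fin n) ℂ) (α : ℂ)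
    (Λ : MvPolynomial (Fin n) ℂ →ₗ[ℂ] ℂ) : Prop :=
  (∀ j, j ≠ i0 → ∀ H, F ∣ H → Λ (pderiv j H) = Λ (w j * H)) ∧
  ∀ K, F ∣ K → Λ (pderiv i0 (X i0 * K)) + α * Λ K = Λ (w i0 * (X i0 * K))

/-- The weights after the substitution. -/
noncomputable def wq (e : ℕ) (i0 : Fin n) (w : Fin n → MvPolynomial (Fin n) ℂ) :
    Fin n → MvPolynomial (Fin n) ℂ :=
  fun j => if j = i0 then C (e : ℂ) * (X i0 ^ (e - 1) * io e i0 (w i0)) else io e i0 (w j)

theorem ibp_q (he : 2 ≤ e) {F : MvPolynomial (Fin n) ℂ} {w : Fin n → MvPolynomial (Fin n) ℂ}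
    {Λ : MvPolynomial (Fin n) ℂ →ₗ[ℂ] ℂ} (h : IBPa F i0 w (1 / (e : ℂ) - 1) Λ) :
    IsIBP (io e i0 F) 1 (wq e i0 w) (Λ ∘ₗ pr e i0 0) := by
  have he0 : (e : ℂ) ≠ 0 := by
    have : e ≠ 0 := by omega
    exact_mod_cast this
  rintro j H ⟨H', rfl⟩
  rw [mul_one, LinearMap.comp_apply, LinearMap.comp_apply, wq]
  by_cases hj : j = i0
  · subst hj
    have h1 : pr e j 1 (io e j F * H') = F * pr e j 1 H' := pr_io_mul (by omega) _ _
    have h2 := h.2 (F * pr e j 1 H') (dvd_mul_right _ _)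
    rw [if_pos rfl, pr_zero_pderiv he, h1]
    have h3 : pr e j 0 (C (e : ℂ) * (X j ^ (e - 1) * io e j (w j)) * (io e j F * H')) =
        (e : ℂ) • (w j * (X j * (F * pr e j 1 H'))) := by
      have h4 : C (e : ℂ) * (X j ^ (e - 1) * io e j (w j)) * (io e j F * H') =
          (e : ℂ) • (io e j (w j) * (io e j F * (X j ^ (e - 1) * H'))) := by
        rw [smul_eq_C_mul]
        ring
      rw [h4, map_smul, pr_io_mul (by omega), pr_io_mul (by omega), pr_zero_X_mul he]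
      congr 2
      ring
    rw [h3, map_smul, ← h2, map_add, map_smul]
    have h5 : pderiv j (X j * (F * pr e j 1 H')) =
        F * pr e j 1 H' + X j * pderiv j (F * pr e j 1 H') := by
      rw [Derivation.leibniz, pderiv_X_self, smul_eq_mul, smul_eq_mul, mul_one, add_comm]
    rw [h5, map_add, smul_eq_mul, smul_eq_mul]
    field_simp
    ring
  · rw [if_neg hj, pr_pderiv_ne hj, pr_io_mul (by omega), pr_io_mul (by omega),
      pr_io_mul (by omega)]
    exact h.1 j hj _ (dvd_mul_right _ _)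

theorem ibp_z (he : 2 ≤ e) {F Y : MvPolynomial (Fin n) ℂ} {w : Fin n → MvPolynomial (Fin n) ℂ}
    {Λ : MvPolynomial (Fin n) ℂ →ₗ[ℂ] ℂ} (h : IsIBP F Y w Λ) :
    IsIBP (io e i0 F) (io e i0 Y) (wq e i0 w) (Λ ∘ₗ pr e i0 (e - 1)) := by
  rintro j H ⟨H', rfl⟩
  rw [LinearMap.comp_apply, LinearMap.comp_apply, wq, ← map_mul]
  by_cases hj : j = i0
  · subst hj
    rw [if_pos rfl, pr_last_pderiv he, pr_io_mul (by omega), map_smul,
      h j _ (dvd_mul_right _ _)]
    have h3 : pr e j (e - 1) (C (e : ℂ) * (X j ^ (e - 1) * io e j (w j)) *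
        (io e j (F * Y) * H')) = (e : ℂ) • (w j * (F * Y * pr e j 0 H')) := by
      have h4 : C (e : ℂ) * (X j ^ (e - 1) * io e j (w j)) * (io e j (F * Y) * H') =
          (e : ℂ) • (io e j (w j) * (io e j (F * Y) * (X j ^ (e - 1) * H'))) := by
        rw [smul_eq_C_mul]
        ring
      rw [h4, map_smul, pr_io_mul (by omega), pr_io_mul (by omega), pr_last_X_mul he]
    rw [h3, map_smul]
  · rw [if_neg hj, pr_pderiv_ne hj, pr_io_mul (by omega), pr_io_mul (by omega),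
      pr_io_mul (by omega)]
    exact h j _ (dvd_mul_right _ _)

end IBP

section Ex

variable {n : ℕ} {DD : Fin n → Fin n → (Rx n →ₗ[ℂ] Rx n)}

theorem Ex_add (l : ℝ) (N : ℕ) (κ α : ℂ) (p q : Rx n) :
    Ex DD l N κ α (p + q) = Ex DD l N κ α p + Ex DD l N κ α q := by
  rw [Ex, Ex, Ex, ← Finset.sum_add_distrib]
  refine Finset.sum_congr rfl fun d _ => ?_
  rw [ExpAux.iter_eq, ExpAux.iter_eq, ExpAux.iter_eq, map_add, map_add]
  ring

theorem Ex_smul (l : ℝ) (N : ℕ) (κ α c : ℂ) (p : Rx n) :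
    Ex DD l N κ α (c • p) = c * Ex DD l N κ α p := by
  rw [Ex, Ex, Finset.mul_sum]
  refine Finset.sum_congr rfl fun d _ => ?_
  rw [ExpAux.iter_eq, ExpAux.iter_eq, map_smul, smul_eq_C_mul, map_mul, constantCoeff_C]
  ring

theorem Ex_indep (hDD : IsDD DD) (hL : StmL) (l : ℝ) (κ α : ℂ) {p : Rx n} (hs : Sym p)
    {N N' : ℕ} (hN : p.totalDegree ≤ N) (hN' : p.totalDegree ≤ N') :
    Ex DD l N κ α p = Ex DD l N' κ α p := by
  have key : ∀ N : ℕ, p.totalDegree ≤ N →
      Ex DD l N κ α p = Ex DD l p.totalDegree κ α p := by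
    intro N hN
    rw [Ex, Ex]
    symm
    refine Finset.sum_subset (Finset.range_mono (by omega)) fun d _ hd => ?_
    have hd' : p.totalDegree < d := by
      by_contra h
      exact hd (Finset.mem_range.mpr (by omega))
    have h1 : constantCoeff ((L DD κ α)^[d] p) = 0 := by
      rw [ExpAux.iter_eq]
      conv_lhs => rw [← sum_homogeneousComponent p]
      rw [map_sum, map_sum]
      refine Finset.sum_eq_zero fun i hi => ?_
      rw [← ExpAux.iter_eq]
      refine ExpAux.cc_iter hL DD hDD κ α d i ?_ _ ?_ (homogeneousComponent_isHomogeneous i p)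
      · rw [Finset.mem_range] at hi
        omega
      · intro σ
        rw [rename_homogeneousComponent, hs σ]
    rw [h1, mul_zero]
  rw [key N hN, key N' hN']

/-- The functional on the polynomials in the coefficients. -/
noncomputable def LamA (hDD : IsDD DD) (hL : StmL) (l : ℝ) (α : ℂ) :
    MvPolynomial (Fin n) ℂ →ₗ[ℂ] ℂ where
  toFun g := Ex DD l (sh n 0 g).totalDegree (1 / 2) α (sh n 0 g)
  map_add' g h := by
    obtain ⟨N, h1, h2, h3⟩ : ∃ N, (sh n 0 (g + h)).totalDegree ≤ N ∧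
        (sh n 0 g).totalDegree ≤ N ∧ (sh n 0 h).totalDegree ≤ N :=
      ⟨max (sh n 0 (g + h)).totalDegree (max (sh n 0 g).totalDegree (sh n 0 h).totalDegree),
        le_max_left _ _, (le_max_left _ _).trans (le_max_right _ _),
        (le_max_right _ _).trans (le_max_right _ _)⟩
    rw [Ex_indep hDD hL l _ α (sym_sh n 0 (g + h)) le_rfl h1,
      Ex_indep hDD hL l _ α (sym_sh n 0 g) le_rfl h2,
      Ex_indep hDD hL l _ α (sym_sh n 0 h) le_rfl h3, map_add, Ex_add]
  map_smul' c g := by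
    obtain ⟨N, h1, h2⟩ : ∃ N, (sh n 0 (c • g)).totalDegree ≤ N ∧ (sh n 0 g).totalDegree ≤ N :=
      ⟨max (sh n 0 (c • g)).totalDegree (sh n 0 g).totalDegree, le_max_left _ _,
        le_max_right _ _⟩
    rw [Ex_indep hDD hL l _ α (sym_sh n 0 (c • g)) le_rfl h1,
      Ex_indep hDD hL l _ α (sym_sh n 0 g) le_rfl h2, map_smul, Ex_smul,
      RingHom.id_apply, smul_eq_mul]

theorem LamA_apply (hDD : IsDD DD) (hL : StmL) (l : ℝ) (α : ℂ) (g : MvPolynomial (Fin n) ℂ)
    {N : ℕ} (hN : (sh n 0 g).totalDegree ≤ N) :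
    LamA hDD hL l α g = Ex DD l N (1 / 2) α (sh n 0 g) :=
  Ex_indep hDD hL l _ α (sym_sh n 0 g) le_rfl hN

theorem hz_zero (hn : 0 < n) : hz n 0 = X (⟨0, hn⟩ : Fin n) := by
  rw [hz, zero_pow hn.ne', C_0, zero_add, Finset.sum_eq_single (⟨0, hn⟩ : Fin n)]
  · simp
  · intro j _ hj
    have : (j : ℕ) ≠ 0 := fun h => hj (Fin.ext h)
    rw [zero_pow this, C_0, zero_mul]
  · intro h
    exact absurd (Finset.mem_univ _) h

/-- The weights. -/
noncomputable def wl (n : ℕ) (hn : 0 < n) (l : ℝ) : Fin n → MvPolynomial (Fin n) ℂ :=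
  fun j => if j = (⟨n - 1, by omega⟩ : Fin n) then C (-1 / (l : ℂ)) else 0

theorem ibpa (hn : 0 < n) (hDD : IsDD DD) (hL : StmL) (hMat : StmMat) (hFun : StmFun)
    (hExp : StmExp) (hPol : StmPol) {l : ℝ} (hl : 0 < l) (α : ℂ)
    {F : MvPolynomial (Fin n) ℂ} (hF : IsDisc n F) :
    IBPa F (⟨0, hn⟩ : Fin n) (wl n hn l) α (LamA hDD hL l α) := by
  obtain ⟨G, hG⟩ := hFun n l hl
  have hibp : IsIBP F (hz n 0) (wl n hn l) (Lam 0 G) := ibp hMat hn 0 hl hG hF
  set i0 : Fin n := ⟨0, hn⟩ with hi0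
  obtain ⟨σ, hσ⟩ : ∃ σ : ℂ, σ = (-1) ^ n := ⟨_, rfl⟩
  have hσ0 : σ ≠ 0 := by
    rw [hσ]
    exact pow_ne_zero _ (neg_ne_zero.mpr one_ne_zero)
  have hshz : sh n 0 (X i0) = C σ * Yp n := by
    rw [← hz_zero hn, sh_hz_self, hσ]
    simp
  -- the values of the functional
  have hval : ∀ (v : ℕ) (g : MvPolynomial (Fin n) ℂ) (N : ℕ), (sh n 0 g).totalDegree ≤ N →
      Lam 0 G (X i0 ^ v * g) = σ ^ v * G (Dl n ^ (2 * 0 + 1) * Yp n ^ v) *
        Ex DD l N (1 / 2) v (sh n 0 g) := by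
    intro v g N hN
    have h1 := hExp n DD hDD l G hl hG 0 v N _ (sym_sh n 0 g) hN
    rw [Nat.cast_zero, zero_add] at h1
    rw [mul_assoc, ← h1, Lam_apply, map_mul (sh n 0), map_pow (sh n 0), hshz]
    have h2 : Dl n * ((C σ * Yp n) ^ v * sh n 0 g) =
        (σ ^ v) • (Dl n ^ (2 * 0 + 1) * Yp n ^ v * sh n 0 g) := by
      rw [smul_eq_C_mul, C_pow]
      ring
    rw [h2, map_smul, smul_eq_mul]
  have hne : ∀ v : ℕ, σ ^ v * G (Dl n ^ (2 * 0 + 1) * Yp n ^ v) ≠ 0 := fun v =>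
    mul_ne_zero (pow_ne_zero _ hσ0) (hG.2 0 v)
  have hpol : ∀ (g : MvPolynomial (Fin n) ℂ), ∃ P : Polynomial ℂ, ∀ s : ℂ,
      P.eval s = LamA hDD hL l s g := by
    intro g
    obtain ⟨P, hP⟩ := (hPol n DD l (sh n 0 g).totalDegree (sh n 0 g)).1 0 (1 / 2) 1 0
    refine ⟨P, fun s => ?_⟩
    rw [hP, zero_mul, zero_add, one_mul, add_zero]
    rfl
  have hval' : ∀ (v : ℕ) (g : MvPolynomial (Fin n) ℂ),
      Lam 0 G (X i0 ^ v * g) = σ ^ v * G (Dl n ^ (2 * 0 + 1) * Yp n ^ v) *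
        LamA hDD hL l (v : ℂ) g := fun v g => hval v g _ le_rfl
  refine ⟨fun j hj H hH => ?_, fun K hK => ?_⟩
  · obtain ⟨P1, hP1⟩ := hpol (pderiv j H)
    obtain ⟨P2, hP2⟩ := hpol (wl n hn l j * H)
    have h1 : P1 = P2 := by
      refine poly_eq 1 fun s hs => ?_
      rw [hP1, hP2]
      apply mul_left_cancel₀ (hne s)
      rw [← hval', ← hval']
      have h2 : X i0 ^ s * pderiv j H = pderiv j (X i0 ^ s * H) := by
        rw [Derivation.leibniz, Derivation.leibniz_pow, pderiv_X_of_ne hj.symm, smul_zero,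
          smul_zero, smul_zero, add_zero, smul_eq_mul]
      have h3 : F * hz n 0 ∣ X i0 ^ s * H := by
        rw [hz_zero hn, mul_comm F]
        exact mul_dvd_mul (dvd_pow_self _ (by omega)) hH
      rw [h2, hibp j _ h3]
      congr 1
      ring
    rw [← hP1, ← hP2, h1]
  · obtain ⟨P1, hP1⟩ := hpol (pderiv i0 (X i0 * K))
    obtain ⟨P2, hP2⟩ := hpol K
    obtain ⟨P3, hP3⟩ := hpol (wl n hn l i0 * (X i0 * K))
    have h1 : P1 + Polynomial.X * P2 = P3 := by
      refine poly_eq 0 fun s _ => ?_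
      rw [Polynomial.eval_add, Polynomial.eval_mul, Polynomial.eval_X, hP1, hP2, hP3]
      apply mul_left_cancel₀ (hne s)
      rw [mul_add, mul_left_comm _ (s : ℂ), ← hval', ← hval', ← hval', ← smul_eq_mul (s : ℂ),
        ← map_smul, ← map_add]
      have h2 : X i0 ^ s * pderiv i0 (X i0 * K) + (s : ℂ) • (X i0 ^ s * K) =
          pderiv i0 (X i0 ^ s * (X i0 * K)) := by
        rw [Derivation.leibniz _ (X i0 ^ s), Derivation.leibniz_pow, pderiv_X_self,
          smul_eq_mul, smul_eq_mul, nsmul_eq_mul, smul_eq_mul, smul_eq_C_mul, mul_one]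
        rcases s with _ | s
        · simp
        · rw [Nat.add_sub_cancel, map_natCast]
          ring
      have h3 : F * hz n 0 ∣ X i0 ^ s * (X i0 * K) := by
        rw [hz_zero hn, mul_comm F]
        exact (mul_dvd_mul (dvd_refl _) hK).mul_left _
      rw [h2, hibp i0 _ h3]
      congr 1
      ring
    have h2 := congrArg (fun P : Polynomial ℂ => P.eval α) h1
    simp only [Polynomial.eval_add, Polynomial.eval_mul, Polynomial.eval_X] at h2
    rwa [hP1, hP2, hP3] at h2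

end Ex

end Pool.Agent.H942.KC
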