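import Pool.Agent.H942.KC.Func
import Pool.Graph.R_pool_sql_team_seeded_5cf16337.K3h15.DM.Pol

set_option autoImplicit false

/-! Functional equations, integrated: the abstract form, and the two cases. -/

namespace Pool.Agent.H942.KC

open MvPolynomial
open Pool.Agent.K3h15.DM
open Pool.Agent.H628R4.TP (weylS IsBFunction)

section Ne

variable {n : ℕ} {DD : Fin n → Fin n → (Rx n →ₗ[ℂ] Rx n)}

theorem Ex_poly (l : ℝ) (N : ℕ) (κ : ℂ) (p : Rx n) :
    ∃ Q : Polynomial ℂ, Q.natDegree ≤ N ∧ ∀ s : ℂ, Q.eval s = Ex DD l N κ s p := by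
  choose m hm using fun d : ℕ => iter_line DD 0 κ 1 0 p d
  refine ⟨∑ d ∈ Finset.range (N + 1), Polynomial.C ((l : ℂ) ^ d / (d.factorial : ℂ)) *
    ∑ k ∈ Finset.range (d + 1), Polynomial.C (constantCoeff (m d k)) * Polynomial.X ^ k, ?_, ?_⟩
  · refine Polynomial.natDegree_sum_le_of_forall_le _ _ fun d hd => ?_
    refine (Polynomial.natDegree_C_mul_le _ _).trans ?_
    refine Polynomial.natDegree_sum_le_of_forall_le _ _ fun k hk => ?_
    refine (Polynomial.natDegree_C_mul_X_pow_le _ _).trans ?_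
    rw [Finset.mem_range] at hd hk
    omega
  · intro s
    rw [Polynomial.eval_finsetSum, Ex]
    refine Finset.sum_congr rfl fun d _ => ?_
    rw [Polynomial.eval_mul, Polynomial.eval_C, Polynomial.eval_finsetSum]
    congr 1
    have h := (hm d).2 s
    rw [zero_mul, zero_add, one_mul, add_zero] at h
    rw [h, map_sum]
    refine Finset.sum_congr rfl fun k _ => ?_
    rw [Polynomial.eval_mul, Polynomial.eval_C, Polynomial.eval_pow, Polynomial.eval_X,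
      smul_eq_C_mul, map_mul, constantCoeff_C, mul_comm]

theorem Yp_deg (n : ℕ) : (Yp n).totalDegree ≤ n := by
  have h := Yp_hom n 1
  rw [pow_one, mul_one] at h
  exact h.totalDegree_le

theorem Ex_Yp_ne (hDD : IsDD DD) (hL : StmL) (hV2 : StmV2) (hFun : StmFun) (hExp : StmExp)
    {l : ℝ} (hl : 0 < l) {α : ℝ} (hα : -1 < α) :
    Ex DD l n (1 / 2) (α : ℂ) (Yp n) ≠ 0 := by
  intro h0
  obtain ⟨Q, hQ1, hQ2⟩ := Ex_poly (DD := DD) l n (1 / 2) (Yp n)
  have hz : ∀ m : ℕ, m < n → Q.eval (-1 - (m : ℂ) / 2) = 0 := by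
    intro m hm
    rw [hQ2]
    refine van_gen hDD hL (fun i : Fin n => if (i : ℕ) < m + 1 then (0 : Rx n) else X i) ?_
      (fun q hq hq0 => hV2 n DD hDD (m + 1) (by omega) (by omega) _ _ ?_ q hq hq0) (sym_Yp n)
      (Yp_van _ (⟨0, by omega⟩ : Fin n) ?_) l n
    · intro i
      split_ifs <;> simp
    · push_cast
      ring
    · rw [if_pos (Nat.succ_pos m)]
  have hQ0 : Q ≠ 0 := by
    rintro rfl
    obtain ⟨G, hG⟩ := hFun n l hl
    have h1 := hExp n DD hDD l G hl hG 0 0 n (Yp n) (sym_Yp n) (Yp_deg n)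
    have hE : Ex DD l n (((0 : ℕ) : ℂ) + 1 / 2) ((0 : ℕ) : ℂ) (Yp n) = 0 := by
      rw [Nat.cast_zero, zero_add, ← hQ2, Polynomial.eval_zero]
    rw [hE] at h1
    have h3 := hG.2 0 1
    rw [pow_one (Yp n)] at h3
    apply h3
    have h4 : Dl n ^ (2 * 0 + 1) * Yp n ^ 0 * Yp n = Dl n ^ (2 * 0 + 1) * Yp n := by ring
    rw [← h4, h1]
    exact mul_zero _
  apply hQ0
  set S : Finset ℂ := insert (α : ℂ) ((Finset.range n).image fun m : ℕ => (-1 - (m : ℂ) / 2)) with hS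
  refine Polynomial.eq_zero_of_natDegree_lt_card_of_eval_eq_zero' Q S ?_ ?_
  · intro x hx
    rw [hS, Finset.mem_insert, Finset.mem_image] at hx
    rcases hx with rfl | ⟨m, hm, rfl⟩
    · rw [hQ2]
      exact h0
    · exact hz m (Finset.mem_range.mp hm)
  · rw [hS, Finset.card_insert_of_notMem, Finset.card_image_of_injective, Finset.card_range]
    · omega
    · intro m m' h
      have h1 : (m : ℂ) = m' := by
        have h2 : (-1 - (m : ℂ) / 2) = -1 - (m' : ℂ) / 2 := h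
        linear_combination -2 * h2
      exact_mod_cast h1
    · rw [Finset.mem_image]
      rintro ⟨m, -, hm⟩
      have h1 : ((-1 - (m : ℝ) / 2 : ℝ) : ℂ) = (α : ℂ) := by
        push_cast
        exact hm
      have h2 : (-1 - (m : ℝ) / 2) = α := by exact_mod_cast h1
      have h3 : (0 : ℝ) ≤ m := Nat.cast_nonneg m
      linarith

/-- The normalizing constants are not zero. -/
theorem Ex_ne (hDD : IsDD DD) (hL : StmL) (hV2 : StmV2) (hFun : StmFun) (hExp : StmExp)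
    (hPol : StmPol) (hD2 : Sym (Dl n ^ 2)) {l : ℝ} (hl : 0 < l) {α : ℝ} (hα : -1 < α)
    (i j : ℕ) {N : ℕ} (hN : (Dl n ^ (2 * i) * Yp n ^ j).totalDegree ≤ N) :
    Ex DD l N (1 / 2) (α : ℂ) (Dl n ^ (2 * i) * Yp n ^ j) ≠ 0 := by
  intro h0
  have hs : Sym (Dl n ^ (2 * i) * Yp n ^ j) := by
    rw [pow_mul]
    exact sym_mul (sym_pow hD2 i) (sym_pow (sym_Yp n) j)
  have hz : ∀ t : ℕ, Ex DD l N (1 / 2) ((α + t : ℝ) : ℂ) (Dl n ^ (2 * i) * Yp n ^ j) = 0 := by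
    intro t
    induction t with
    | zero =>
      rw [Nat.cast_zero, add_zero]
      exact h0
    | succ t ih =>
      have h1 := mult hDD hFun hExp hPol hD2 hl i j (sym_Yp n) (N1 := N) (N2 := n)
        (N := (Dl n ^ (2 * i) * Yp n ^ j * Yp n).totalDegree) le_rfl hN (Yp_deg n)
        (1 / 2) ((α + t : ℝ) : ℂ)
      rw [ih, zero_mul] at h1
      have h2 := mult hDD hFun hExp hPol hD2 hl 0 1 hs (N1 := n) (N2 := N)
        (N := (Dl n ^ (2 * 0) * Yp n ^ 1 * (Dl n ^ (2 * i) * Yp n ^ j)).totalDegree) le_rfl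
        (by
          rw [mul_zero, pow_zero, pow_one, one_mul]
          exact Yp_deg n) hN (1 / 2) ((α + t : ℝ) : ℂ)
      have h3 : Dl n ^ (2 * 0) * Yp n ^ 1 * (Dl n ^ (2 * i) * Yp n ^ j) =
          Dl n ^ (2 * i) * Yp n ^ j * Yp n := by ring
      rw [h3, h1] at h2
      have h4 : Dl n ^ (2 * 0) * Yp n ^ 1 = Yp n := by
        rw [mul_zero, pow_zero, pow_one, one_mul]
      rw [h4] at h2
      rcases mul_eq_zero.mp h2.symm with h5 | h5
      · refine absurd h5 (Ex_Yp_ne hDD hL hV2 hFun hExp hl ?_)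
        have h6 : (0 : ℝ) ≤ t := Nat.cast_nonneg t
        linarith
      · have h6 : (1 / 2 : ℂ) + ((0 : ℕ) : ℂ) = 1 / 2 := by simp
        have h7 : ((α + t : ℝ) : ℂ) + ((1 : ℕ) : ℂ) = ((α + (t + 1 : ℕ) : ℝ) : ℂ) := by
          push_cast
          ring
        rw [h6, h7] at h5
        exact h5
  obtain ⟨Q, -, hQ2⟩ := Ex_poly (DD := DD) l N (1 / 2) (Dl n ^ (2 * i) * Yp n ^ j)
  have hQ0 : Q = 0 := by
    apply Polynomial.eq_of_infinite_eval_eq
    have h1 : ((fun t : ℕ => ((α + t : ℝ) : ℂ)) '' Set.univ).Infinite := by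
      refine Set.infinite_univ.image (fun a _ b _ hab => ?_)
      have h2 : ((α + a : ℝ) : ℂ) = ((α + b : ℝ) : ℂ) := hab
      have h3 : (α + a : ℝ) = α + b := by exact_mod_cast h2
      have h4 : (a : ℝ) = b := by linarith
      exact_mod_cast h4
    refine h1.mono ?_
    rintro _ ⟨t, -, rfl⟩
    change Q.eval _ = Polynomial.eval _ 0
    rw [hQ2, hz t, Polynomial.eval_zero]
  obtain ⟨G, hG⟩ := hFun n l hl
  have h1 := hExp n DD hDD l G hl hG 0 0 N _ hs hN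
  have hE : Ex DD l N (((0 : ℕ) : ℂ) + 1 / 2) ((0 : ℕ) : ℂ) (Dl n ^ (2 * i) * Yp n ^ j) = 0 := by
    rw [Nat.cast_zero, zero_add, ← hQ2, hQ0, Polynomial.eval_zero]
  rw [hE] at h1
  have h3 := hG.2 i j
  have h4 : Dl n ^ (2 * 0 + 1) * Yp n ^ 0 * (Dl n ^ (2 * i) * Yp n ^ j) =
      Dl n ^ (2 * i + 1) * Yp n ^ j := by ring
  apply h3
  rw [← h4, h1]
  exact mul_zero _

end Ne

section Abs

variable {n : ℕ}

/-- The functional equation, integrated. -/
theorem gen_abs (hAdj : StmAdj) {F Y g u : MvPolynomial (Fin n) ℂ} (hF : F ∣ g) (hY : Y ∣ g)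
    (hu : u ≠ 0) {c : Polynomial ℂ} (hc : IsBFunction (g * u) c) :
    ∃ (S : Finset ℕ) (M : ℕ), 1 ≤ M ∧ ∀ w : Fin n → MvPolynomial (Fin n) ℂ,
      ∃ (K : ℕ → ℕ) (B : ℕ → ℕ → (MvPolynomial (Fin n) ℂ →ₗ[ℂ] MvPolynomial (Fin n) ℂ)),
        ∀ Λ : MvPolynomial (Fin n) ℂ →ₗ[ℂ] ℂ, IsIBP F Y w Λ → ∀ (v : MvPolynomial (Fin n) ℂ)
          (s : ℕ), M ≤ s → c.eval (s : ℂ) * Λ (v * (u ^ (M - 1) * g ^ s)) =
            ∑ m ∈ S, ∑ k ∈ Finset.range (K m), (s : ℂ) ^ m * ((s : ℂ) + 1 - M) ^ k *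
              Λ (B m k v * g ^ (s + 1)) := by
  obtain ⟨P, hP⟩ := hc
  have hadj := fun m : ℕ => hAdj n F Y u (P m : Module.End ℂ (MvPolynomial (Fin n) ℂ)) (P m).2
  choose m0 hm0 using hadj
  refine ⟨P.support, P.support.sup m0 + 1, by omega, ?_⟩
  set M := P.support.sup m0 + 1 with hMdef
  have hM : ∀ m ∈ P.support, m0 m ≤ M := fun m hm =>
    (Finset.le_sup (f := m0) hm).trans (Nat.le_succ _)
  have hM1' : 1 ≤ M := by omega
  clear_value M
  intro w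
  have hB : ∀ m : ℕ, ∃ (K : ℕ) (B : ℕ → (MvPolynomial (Fin n) ℂ →ₗ[ℂ] MvPolynomial (Fin n) ℂ)),
      m ∈ P.support → 
      ∀ (s : ℕ) (H : MvPolynomial (Fin n) ℂ), ∃ W : MvPolynomial (Fin n) ℂ,
        (P m : Module.End ℂ (MvPolynomial (Fin n) ℂ)) (u ^ (s + M) * H) = u ^ s * W ∧
        ∀ (v : MvPolynomial (Fin n) ℂ) (Λ : MvPolynomial (Fin n) ℂ →ₗ[ℂ] ℂ),
          IsIBP F Y w Λ → F ^ M ∣ H → (Y ^ M ∣ H ∨ Y ^ M ∣ v) →
          Λ (v * W) = Λ ((∑ k ∈ Finset.range K, ((s : ℂ) ^ k) • B k v) * H) := by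
    intro m
    by_cases hm : m ∈ P.support
    · obtain ⟨K, B, -, h⟩ := hm0 m M (hM m hm) w
      refine ⟨K, B, fun _ s H => ?_⟩
      obtain ⟨W, h1, -, -, h2⟩ := h s H
      exact ⟨W, h1, h2⟩
    · exact ⟨0, fun _ => 0, fun h => absurd h hm⟩
  choose K B hB using hB
  refine ⟨K, B, fun Λ hΛ v s hs => ?_⟩
  obtain ⟨s', hs'⟩ : ∃ s', s + 1 = s' + M := ⟨s + 1 - M, by omega⟩
  set H : MvPolynomial (Fin n) ℂ := g ^ (s + 1) with hH
  have hfH : (g * u) ^ (s + 1) = u ^ (s' + M) * H := by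
    rw [← hs', hH]
    ring
  have hFH : F ^ M ∣ H := (pow_dvd_pow_of_dvd hF M).trans (pow_dvd_pow g (by omega))
  have hYH : Y ^ M ∣ H ∨ Y ^ M ∣ v :=
    Or.inl ((pow_dvd_pow_of_dvd hY M).trans (pow_dvd_pow g (by omega)))
  have hW : ∀ m : ℕ, ∃ W : MvPolynomial (Fin n) ℂ, m ∈ P.support →
      (P m : Module.End ℂ (MvPolynomial (Fin n) ℂ)) (u ^ (s' + M) * H) = u ^ s' * W ∧
      Λ (v * W) = Λ ((∑ k ∈ Finset.range (K m), ((s' : ℂ) ^ k) • B m k v) * H) := by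
    intro m
    by_cases hm : m ∈ P.support
    · obtain ⟨W, h1, h4⟩ := hB m hm s' H
      exact ⟨W, fun _ => ⟨h1, h4 v Λ hΛ hFH hYH⟩⟩
    · exact ⟨0, fun h => absurd h hm⟩
  choose W hW using hW
  have e1 : C (c.eval (s : ℂ)) * u ^ (M - 1) * g ^ s =
      ∑ m ∈ P.support, ((s : ℂ) ^ m) • W m := by
    have e2 := hP s
    rw [Finsupp.sum] at e2
    have e3 : ∑ m ∈ P.support, ((s : ℂ) ^ m) •
        (P m : Module.End ℂ (MvPolynomial (Fin n) ℂ)) ((g * u) ^ (s + 1)) =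
        u ^ s' * ∑ m ∈ P.support, ((s : ℂ) ^ m) • W m := by
      rw [Finset.mul_sum]
      refine Finset.sum_congr rfl fun m hm => ?_
      rw [hfH, (hW m hm).1, mul_smul_comm]
    rw [e3] at e2
    have e4 : (g * u) ^ s = u ^ s' * (u ^ (M - 1) * g ^ s) := by
      have : s = s' + (M - 1) := by omega
      rw [mul_pow _ u, ← mul_assoc, ← pow_add, ← this]
      ring
    rw [e4] at e2
    have e5 : u ^ s' * (C (c.eval (s : ℂ)) * u ^ (M - 1) * g ^ s) =
        u ^ s' * ∑ m ∈ P.support, ((s : ℂ) ^ m) • W m := by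
      rw [← e2]
      ring
    exact mul_left_cancel₀ (pow_ne_zero _ hu) e5
  have e7 : v * (C (c.eval (s : ℂ)) * u ^ (M - 1) * g ^ s) =
      (c.eval (s : ℂ)) • (v * (u ^ (M - 1) * g ^ s)) := by
    rw [MvPolynomial.smul_eq_C_mul]
    ring
  have e8 := congrArg (fun t => Λ (v * t)) e1
  simp only [e7, map_smul, smul_eq_mul, Finset.mul_sum, map_sum] at e8
  rw [e8]
  refine Finset.sum_congr rfl fun m hm => ?_
  rw [mul_smul_comm, map_smul, (hW m hm).2, smul_eq_mul, Finset.sum_mul, map_sum, Finset.mul_sum]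
  refine Finset.sum_congr rfl fun k _ => ?_
  have hs'c : (s' : ℂ) = (s : ℂ) + 1 - M := by
    have : ((s + 1 : ℕ) : ℂ) = ((s' + M : ℕ) : ℂ) := by rw [hs']
    push_cast at this
    rw [this]
    ring
  rw [smul_mul_assoc, map_smul, smul_eq_mul, hs'c, mul_assoc ((s : ℂ) ^ m)]

end Abs

end Pool.Agent.H942.KC
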