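import Pool.Agent.H942.KC.Gen

set_option autoImplicit false

/-! The functional equation, integrated near the cluster at zero, and near the other clusters. -/

namespace Pool.Agent.H942.KC

open MvPolynomial
open Pool.Agent.K3h15.DM
open Pool.Agent.H628R4.TP (weylS IsBFunction)

variable {n : ℕ} {DD : Fin n → Fin n → (Rx n →ₗ[ℂ] Rx n)} {e : ℕ}

theorem io_ne {i0 : Fin n} (he : 0 < e) {u : MvPolynomial (Fin n) ℂ} (hu : u ≠ 0) :
    io e i0 u ≠ 0 := by
  intro h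
  have h1 := pr_io (i0 := i0) he u
  rw [h, map_zero] at h1
  exact hu h1.symm

theorem sh_X0 (hn : 0 < n) : sh n 0 (X (⟨0, hn⟩ : Fin n)) = C ((-1) ^ n : ℂ) * Yp n := by
  rw [← hz_zero hn, sh_hz_self]
  simp

theorem gen0 (hn : 0 < n) (hDD : IsDD DD) (hL : StmL) (hV2 : StmV2) (hMat : StmMat)
    (hFun : StmFun) (hExp : StmExp) (hPol : StmPol) (hAdj : StmAdj)
    {F : MvPolynomial (Fin n) ℂ} (hF : IsDisc n F) {a b : ℕ} (ha : 1 ≤ a) (he : 2 ≤ e)
    {u : MvPolynomial (Fin n) ℂ} (hu : u ≠ 0) {c : Polynomial ℂ}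
    (hc : IsBFunction (io e (⟨0, hn⟩ : Fin n) F ^ a * X (⟨0, hn⟩ : Fin n) ^ b *
      io e (⟨0, hn⟩ : Fin n) u) c) :
    ∃ M : ℕ, ∀ l : ℝ, 0 < l → ∀ N : ℕ, (sh n 0 (u ^ M)).totalDegree ≤ N → ∀ S : ℂ,
      (∀ (r : MvPolynomial (Fin n) ℂ) (N' : ℕ),
        (Dl n ^ (2 * a) * Yp n ^ ((b + (e - 1)) / e) * sh n 0 r).totalDegree ≤ N' →
        Ex DD l N' (a * S + 1 / 2) (b * (S / e) + (1 / (e : ℂ) - 1))
          (Dl n ^ (2 * a) * Yp n ^ ((b + (e - 1)) / e) * sh n 0 r) = 0) →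
      c.eval S * Ex DD l N (a * S + 1 / 2) (b * (S / e) + (1 / (e : ℂ) - 1))
        (sh n 0 (u ^ M)) = 0 := by
  set i0 : Fin n := ⟨0, hn⟩ with hi0
  obtain ⟨S0, M, hM1, hgen⟩ := gen_abs hAdj (F := io e i0 F) (Y := 1)
    (g := io e i0 F ^ a * X i0 ^ b) (u := io e i0 u)
    ((dvd_pow_self _ (by omega)).mul_right _) (one_dvd _) (io_ne (by omega) hu) hc
  refine ⟨M - 1, fun l hl N hN S hvan => ?_⟩
  have he0 : (e : ℂ) ≠ 0 := by
    have : e ≠ 0 := by omega
    exact_mod_cast this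
  obtain ⟨K, B, h⟩ := hgen (wq e i0 (wl n hn l))
  set α0 : ℝ := 1 / (e : ℝ) - 1 with hα0
  have hα : -1 < α0 := by
    have : (0 : ℝ) < 1 / (e : ℝ) := by
      have : (0 : ℝ) < e := by exact_mod_cast (by omega : 0 < e)
      positivity
    rw [hα0]
    linarith
  have hα' : (α0 : ℂ) = 1 / (e : ℂ) - 1 := by
    rw [hα0]
    push_cast
    rfl
  have hibp := ibpa hn hDD hL hMat hFun hExp hPol hl (1 / (e : ℂ) - 1) hF
  have hΛ := h _ (ibp_q he hibp) 1
  obtain ⟨σ, hσ⟩ : ∃ σ : ℂ, σ = (-1) ^ n := ⟨_, rfl⟩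
  have hσ0 : σ ≠ 0 := by
    rw [hσ]
    exact pow_ne_zero _ (neg_ne_zero.mpr one_ne_zero)
  have hshz : sh n 0 (X i0) = C σ * Yp n := by
    rw [hσ]
    exact sh_X0 hn
  have hD2 : Sym (Dl n ^ 2) := sym_Dl2 hF
  set b' : ℕ := (b + (e - 1)) / e with hb'
  have hr : ∀ m k : ℕ, ∃ r : MvPolynomial (Fin n) ℂ,
      pr e i0 0 (X i0 ^ b * B m k 1) = X i0 ^ b' * r := fun m k => pr_X_pow_dvd (by omega) b _
  choose r hr using hr
  -- the values of the functional
  have hval : ∀ (x y : ℕ) (p : MvPolynomial (Fin n) ℂ) (N' : ℕ), (sh n 0 p).totalDegree ≤ N' →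
      LamA hDD hL l (1 / (e : ℂ) - 1) (F ^ x * (X i0 ^ y * p)) =
        (σ ^ y * Ex DD l (Dl n ^ (2 * x) * Yp n ^ y).totalDegree (1 / 2) α0
          (Dl n ^ (2 * x) * Yp n ^ y)) * Ex DD l N' ((x : ℂ) + 1 / 2) ((y : ℂ) + α0)
            (sh n 0 p) := by
    intro x y p N' hN'
    have h1 : sh n 0 (F ^ x * (X i0 ^ y * p)) =
        (σ ^ y) • (Dl n ^ (2 * x) * Yp n ^ y * sh n 0 p) := by
      rw [map_mul, map_mul, map_pow, map_pow, sh_disc hF, hshz, smul_eq_C_mul, C_pow]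
      ring
    have hs : Sym (Dl n ^ (2 * x) * Yp n ^ y * sh n 0 p) := by
      rw [pow_mul]
      exact sym_mul (sym_mul (sym_pow hD2 x) (sym_pow (sym_Yp n) y)) (sym_sh n 0 p)
    have h2 := LamA_apply hDD hL l (1 / (e : ℂ) - 1) (F ^ x * (X i0 ^ y * p)) le_rfl
    rw [h2, Ex_indep hDD hL l _ _ (sym_sh n 0 _) le_rfl
      (le_max_left _ (Dl n ^ (2 * x) * Yp n ^ y * sh n 0 p).totalDegree), h1, Ex_smul,
      mult hDD hFun hExp hPol hD2 hl x y (sym_sh n 0 p) (le_max_right _ _) le_rfl hN', ← hα',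
      add_comm (1 / 2 : ℂ) (x : ℂ), add_comm (α0 : ℂ) (y : ℂ)]
    ring
  have hne : ∀ x y : ℕ, σ ^ y * Ex DD l (Dl n ^ (2 * x) * Yp n ^ y).totalDegree (1 / 2) α0
      (Dl n ^ (2 * x) * Yp n ^ y) ≠ 0 := fun x y => mul_ne_zero (pow_ne_zero _ hσ0)
    (Ex_ne hDD hL hV2 hFun hExp hPol hD2 hl hα x y le_rfl)
  set q : ℕ → ℕ → Rx n := fun m k => Dl n ^ (2 * a) * Yp n ^ b' * sh n 0 (r m k) with hq
  -- the functional equation at multiples of `e`
  have key : ∀ t : ℕ, M ≤ t →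
      c.eval ((e : ℂ) * t) * Ex DD l N ((a * e) * (t : ℂ) + 1 / 2) (b * (t : ℂ) + α0)
        (sh n 0 (u ^ (M - 1))) =
      ∑ m ∈ S0, ∑ k ∈ Finset.range (K m), ((e : ℂ) * t) ^ m * ((e : ℂ) * t + 1 - M) ^ k *
        (σ ^ b' * Ex DD l (q m k).totalDegree ((a * e) * (t : ℂ) + 1 / 2) (b * (t : ℂ) + α0)
          (q m k)) := by
    intro t ht
    have h1 := hΛ (e * t) (ht.trans (Nat.le_mul_of_pos_left t (by omega)))
    have h2 : pr e i0 0 (1 * (io e i0 u ^ (M - 1) * (io e i0 F ^ a * X i0 ^ b) ^ (e * t))) =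
        F ^ (a * (e * t)) * (X i0 ^ (b * t) * u ^ (M - 1)) := by
      have h3 : 1 * (io e i0 u ^ (M - 1) * (io e i0 F ^ a * X i0 ^ b) ^ (e * t)) =
          io e i0 (F ^ (a * (e * t)) * (X i0 ^ (b * t) * u ^ (M - 1))) := by
        rw [map_mul, map_mul, map_pow, map_pow, map_pow, io_X_self]
        ring
      rw [h3, pr_io (by omega)]
    have h4 : ∀ m k, pr e i0 0 (B m k 1 * (io e i0 F ^ a * X i0 ^ b) ^ (e * t + 1)) =
        F ^ (a * (e * t)) * (X i0 ^ (b * t) * (F ^ a * X i0 ^ b' * r m k)) := by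
      intro m k
      have h3 : B m k 1 * (io e i0 F ^ a * X i0 ^ b) ^ (e * t + 1) =
          io e i0 (F ^ (a * (e * t)) * (X i0 ^ (b * t) * F ^ a)) * (X i0 ^ b * B m k 1) := by
        rw [map_mul, map_mul, map_pow, map_pow, map_pow, io_X_self]
        ring
      rw [h3, pr_io_mul (by omega), hr]
      ring
    have h5 : ∀ m k, sh n 0 (F ^ a * X i0 ^ b' * r m k) = (σ ^ b') • q m k := by
      intro m k
      rw [map_mul, map_mul, map_pow, map_pow, sh_disc hF, hshz, smul_eq_C_mul, C_pow, hq]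
      ring
    have h6 : ∀ m k, LamA hDD hL l (1 / (e : ℂ) - 1)
        (F ^ (a * (e * t)) * (X i0 ^ (b * t) * (F ^ a * X i0 ^ b' * r m k))) =
        (σ ^ (b * t) * Ex DD l (Dl n ^ (2 * (a * (e * t))) * Yp n ^ (b * t)).totalDegree (1 / 2) α0
          (Dl n ^ (2 * (a * (e * t))) * Yp n ^ (b * t))) *
          (σ ^ b' * Ex DD l (q m k).totalDegree (((a * (e * t) : ℕ) : ℂ) + 1 / 2)
            (((b * t : ℕ) : ℂ) + α0) (q m k)) := by
      intro m k
      rw [hval _ _ _ (q m k).totalDegree (by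
        rw [h5]
        exact totalDegree_smul_le _ _), h5, Ex_smul]
    simp only [LinearMap.comp_apply] at h1
    rw [h2, hval _ _ _ N hN] at h1
    simp only [h4, h6] at h1
    have e1 : (((a * (e * t) : ℕ) : ℂ)) = (a * e) * (t : ℂ) := by
      push_cast
      ring
    have e2 : (((b * t : ℕ) : ℂ)) = b * (t : ℂ) := by
      push_cast
      ring
    have e3 : (((e * t : ℕ) : ℂ)) = (e : ℂ) * t := by
      push_cast
      ring
    simp only [e1, e2, e3] at h1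
    apply mul_left_cancel₀ (hne (a * (e * t)) (b * t))
    rw [mul_left_comm, h1, Finset.mul_sum]
    refine Finset.sum_congr rfl fun m _ => ?_
    rw [Finset.mul_sum]
    refine Finset.sum_congr rfl fun k _ => ?_
    ring
  -- polynomials
  obtain ⟨P1, hP1⟩ := (hPol n DD l N (sh n 0 (u ^ (M - 1)))).1 (a * e) (1 / 2) b α0
  have hP2 := fun m k => (hPol n DD l (q m k).totalDegree (q m k)).1 (a * e) (1 / 2) b α0
  choose P2 hP2 using hP2
  have hpoly : c.comp (Polynomial.C (e : ℂ) * Polynomial.X) * P1 =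
      ∑ m ∈ S0, ∑ k ∈ Finset.range (K m), (Polynomial.C (e : ℂ) * Polynomial.X) ^ m *
        (Polynomial.C (e : ℂ) * Polynomial.X + Polynomial.C (1 - (M : ℂ))) ^ k *
          (Polynomial.C (σ ^ b') * P2 m k) := by
    refine poly_eq M fun s hs => ?_
    rw [Polynomial.eval_mul, Polynomial.eval_comp, hP1, Polynomial.eval_mul, Polynomial.eval_C,
      Polynomial.eval_X, key s hs, Polynomial.eval_finsetSum]
    refine Finset.sum_congr rfl fun m _ => ?_
    rw [Polynomial.eval_finsetSum]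
    refine Finset.sum_congr rfl fun k _ => ?_
    simp only [Polynomial.eval_mul, Polynomial.eval_pow, Polynomial.eval_X, Polynomial.eval_add,
      Polynomial.eval_C]
    rw [hP2]
    ring
  have hfin := congrArg (fun Q : Polynomial ℂ => Q.eval (S / e)) hpoly
  simp only [Polynomial.eval_mul, Polynomial.eval_comp, Polynomial.eval_C, Polynomial.eval_X, hP1,
    Polynomial.eval_finsetSum, hP2] at hfin
  have e4 : (a : ℂ) * e * (S / e) = a * S := by field_simp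
  have e5 : (e : ℂ) * (S / e) = S := mul_div_cancel₀ _ he0
  rw [e4, e5, hα'] at hfin
  rw [hfin]
  refine Finset.sum_eq_zero fun m _ => Finset.sum_eq_zero fun k _ => ?_
  rw [hvan (r m k) (q m k).totalDegree le_rfl, mul_zero, mul_zero]

end Pool.Agent.H942.KC
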