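import Pool.Agent.H942.KC.Gen2

set_option autoImplicit false

/-! The functional equation, integrated near a cluster at a point `z`. -/

namespace Pool.Agent.H942.KC

open MvPolynomial
open Pool.Agent.K3h15.DM
open Pool.Agent.H628R4.TP (weylS IsBFunction)

variable {n : ℕ} {DD : Fin n → Fin n → (Rx n →ₗ[ℂ] Rx n)} {e : ℕ}

theorem genz (hn : 0 < n) (hDD : IsDD DD) (hMat : StmMat)
    (hFun : StmFun) (hExp : StmExp) (hPol : StmPol) (hAdj : StmAdj)
    {F : MvPolynomial (Fin n) ℂ} (hF : IsDisc n F) (z : ℂ) {a b b1 : ℕ} (ha : 1 ≤ a)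
    (hb1 : 1 ≤ b1) (he : 2 ≤ e)
    {u : MvPolynomial (Fin n) ℂ} (hu : u ≠ 0) {c : Polynomial ℂ}
    (hc : IsBFunction (io e (⟨0, hn⟩ : Fin n) F ^ a * io e (⟨0, hn⟩ : Fin n) (hz n z) ^ b1 *
      (X (⟨0, hn⟩ : Fin n) ^ b * io e (⟨0, hn⟩ : Fin n) u)) c) :
    ∃ M : ℕ, ∀ l : ℝ, 0 < l → ∀ N : ℕ,
      (sh n z (X (⟨0, hn⟩ : Fin n) ^ (b * M) * u ^ M)).totalDegree ≤ N → ∀ S : ℂ,
      (∀ (r : MvPolynomial (Fin n) ℂ) (N' : ℕ),
        (Dl n ^ (2 * a) * Yp n ^ b1 * sh n z r).totalDegree ≤ N' →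
        Ex DD l N' (a * S + 1 / 2) (b1 * S) (Dl n ^ (2 * a) * Yp n ^ b1 * sh n z r) = 0) →
      c.eval S * Ex DD l N (a * S + 1 / 2) (b1 * S)
        (sh n z (X (⟨0, hn⟩ : Fin n) ^ (b * M) * u ^ M)) = 0 := by
  set i0 : Fin n := ⟨0, hn⟩ with hi0
  have hX0 : (X i0 : MvPolynomial (Fin n) ℂ) ≠ 0 := X_ne_zero _
  obtain ⟨S0, M, hM1, hgen⟩ := gen_abs hAdj (F := io e i0 F) (Y := io e i0 (hz n z))
    (g := io e i0 F ^ a * io e i0 (hz n z) ^ b1) (u := X i0 ^ b * io e i0 u)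
    ((dvd_pow_self _ (by omega)).mul_right _) ((dvd_pow_self _ (by omega)).mul_left _)
    (mul_ne_zero (pow_ne_zero _ hX0) (io_ne (by omega) hu)) hc
  refine ⟨M - 1, fun l hl N hN S hvan => ?_⟩
  obtain ⟨K, B, h⟩ := hgen (wq e i0 (wl n hn l))
  obtain ⟨G, hG⟩ := hFun n l hl
  have hibp : IsIBP F (hz n z) (wl n hn l) (Lam z G) := ibp hMat hn z hl hG hF
  set v : MvPolynomial (Fin n) ℂ := X i0 ^ ((e - 1) + (e - 1) * (b * (M - 1))) with hv
  have hΛ := h _ (ibp_z he hibp) v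
  obtain ⟨σ, hσ⟩ : ∃ σ : ℂ, σ = (-1) ^ n := ⟨_, rfl⟩
  have hσ0 : σ ≠ 0 := by
    rw [hσ]
    exact pow_ne_zero _ (neg_ne_zero.mpr one_ne_zero)
  have hshz : sh n z (hz n z) = C σ * Yp n := by
    rw [sh_hz_self, hσ]
    simp
  have hD2 : Sym (Dl n ^ 2) := sym_Dl2 hF
  set r : ℕ → ℕ → MvPolynomial (Fin n) ℂ := fun m k => pr e i0 (e - 1) (B m k v) with hr
  set q : ℕ → ℕ → Rx n := fun m k => Dl n ^ (2 * a) * Yp n ^ b1 * sh n z (r m k) with hq
  set v1 : MvPolynomial (Fin n) ℂ := X i0 ^ (b * (M - 1)) * u ^ (M - 1) with hv1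
  have hqs : ∀ m k, Sym (q m k) := by
    intro m k
    rw [hq]
    dsimp only
    rw [pow_mul]
    exact sym_mul (sym_mul (sym_pow hD2 a) (sym_pow (sym_Yp n) b1)) (sym_sh n z _)
  -- the functional equation at integers
  have key : ∀ s : ℕ, M ≤ s →
      c.eval (s : ℂ) * Ex DD l N (a * (s : ℂ) + 1 / 2) (b1 * (s : ℂ)) (sh n z v1) =
      ∑ m ∈ S0, ∑ k ∈ Finset.range (K m), (s : ℂ) ^ m * ((s : ℂ) + 1 - M) ^ k *
        (σ ^ b1 * Ex DD l (q m k).totalDegree (a * (s : ℂ) + 1 / 2) (b1 * (s : ℂ)) (q m k)) := by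
    intro s hs
    have h1 := hΛ s hs
    have h2 : pr e i0 (e - 1) (v * ((X i0 ^ b * io e i0 u) ^ (M - 1) *
        (io e i0 F ^ a * io e i0 (hz n z) ^ b1) ^ s)) =
        v1 * (F ^ a * hz n z ^ b1) ^ s := by
      have h3 : v * ((X i0 ^ b * io e i0 u) ^ (M - 1) *
          (io e i0 F ^ a * io e i0 (hz n z) ^ b1) ^ s) =
          X i0 ^ (e - 1) * io e i0 (v1 * (F ^ a * hz n z ^ b1) ^ s) := by
        have h4 : (X i0 : MvPolynomial (Fin n) ℂ) ^ (e * (b * (M - 1))) =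
            X i0 ^ ((e - 1) * (b * (M - 1))) * X i0 ^ (b * (M - 1)) := by
          rw [← pow_add]
          congr 1
          obtain ⟨e', rfl⟩ : ∃ e', e = e' + 1 := ⟨e - 1, by omega⟩
          rw [Nat.add_sub_cancel]
          ring
        rw [hv, hv1]
        simp only [map_mul, map_pow, io_X_self]
        rw [← pow_mul (X i0) e, h4]
        ring
      rw [h3, pr_last_X_mul he, pr_io (by omega)]
    have h4 : ∀ m k, pr e i0 (e - 1) (B m k v *
        (io e i0 F ^ a * io e i0 (hz n z) ^ b1) ^ (s + 1)) =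
        r m k * (F ^ a * hz n z ^ b1) ^ (s + 1) := by
      intro m k
      have h3 : B m k v * (io e i0 F ^ a * io e i0 (hz n z) ^ b1) ^ (s + 1) =
          io e i0 ((F ^ a * hz n z ^ b1) ^ (s + 1)) * B m k v := by
        rw [map_pow (io e i0), map_mul (io e i0), map_pow (io e i0), map_pow (io e i0)]
        ring
      rw [h3, pr_io_mul (by omega), mul_comm]
    simp only [LinearMap.comp_apply, h2, h4] at h1
    -- the values of the functional
    have e9 : ∀ p : Rx n, Sym p → ∀ N0, p.totalDegree ≤ N0 →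
        G (Dl n ^ (2 * (a * s) + 1) * Yp n ^ (b1 * s) * p) =
        G (Dl n ^ (2 * (a * s) + 1) * Yp n ^ (b1 * s)) *
          Ex DD l N0 (a * (s : ℂ) + 1 / 2) (b1 * (s : ℂ)) p := by
      intro p hp N0 hN0
      have := hExp n DD hDD l G hl hG (a * s) (b1 * s) N0 p hp hN0
      push_cast at this
      exact this
    have hne := hG.2 (a * s) (b1 * s)
    have hGC : ∀ (x : ℂ) (p : Rx n), x * G p = G (C x * p) := by
      intro x p
      rw [← smul_eq_mul, ← map_smul, MvPolynomial.smul_eq_C_mul]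
    have e10 : Lam z G (v1 * (F ^ a * hz n z ^ b1) ^ s) =
        σ ^ (b1 * s) * (G (Dl n ^ (2 * (a * s) + 1) * Yp n ^ (b1 * s)) *
          Ex DD l N (a * (s : ℂ) + 1 / 2) (b1 * (s : ℂ)) (sh n z v1)) := by
      rw [← e9 _ (sym_sh n z _) N hN, Lam_apply, hGC]
      congr 1
      simp only [map_mul, map_pow, sh_disc hF, hshz]
      ring
    have e11 : ∀ m k, Lam z G (r m k * (F ^ a * hz n z ^ b1) ^ (s + 1)) =
        σ ^ (b1 * s) * (G (Dl n ^ (2 * (a * s) + 1) * Yp n ^ (b1 * s)) *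
          (σ ^ b1 * Ex DD l (q m k).totalDegree (a * (s : ℂ) + 1 / 2) (b1 * (s : ℂ))
            (q m k))) := by
      intro m k
      rw [mul_left_comm _ (σ ^ b1), ← e9 _ (hqs m k) _ le_rfl, Lam_apply, hGC, hGC]
      congr 1
      rw [hq]
      simp only [map_mul, map_pow, sh_disc hF, hshz]
      ring
    rw [e10] at h1
    simp only [e11] at h1
    have hne2 : σ ^ (b1 * s) * G (Dl n ^ (2 * (a * s) + 1) * Yp n ^ (b1 * s)) ≠ 0 :=
      mul_ne_zero (pow_ne_zero _ hσ0) hne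
    apply mul_left_cancel₀ hne2
    calc _ = c.eval (s : ℂ) * (σ ^ (b1 * s) *
          (G (Dl n ^ (2 * (a * s) + 1) * Yp n ^ (b1 * s)) *
          Ex DD l N (a * (s : ℂ) + 1 / 2) (b1 * (s : ℂ)) (sh n z v1))) := by
            ring
      _ = _ := by
        rw [h1, Finset.mul_sum]
        refine Finset.sum_congr rfl fun m _ => ?_
        rw [Finset.mul_sum]
        refine Finset.sum_congr rfl fun k _ => ?_
        ring
  -- polynomials in `s`
  obtain ⟨P1, hP1⟩ := (hPol n DD l N (sh n z v1)).1 a (1 / 2) b1 0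
  have hP2 := fun m k => (hPol n DD l (q m k).totalDegree (q m k)).1 a (1 / 2) b1 0
  choose P2 hP2 using hP2
  have hpoly : c * P1 = ∑ m ∈ S0, ∑ k ∈ Finset.range (K m),
      Polynomial.X ^ m * (Polynomial.X + Polynomial.C (1 - (M : ℂ))) ^ k *
        (Polynomial.C (σ ^ b1) * P2 m k) := by
    refine poly_eq M fun s hs => ?_
    rw [Polynomial.eval_mul, hP1, add_zero, key s hs, Polynomial.eval_finsetSum]
    refine Finset.sum_congr rfl fun m _ => ?_
    rw [Polynomial.eval_finsetSum]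
    refine Finset.sum_congr rfl fun k _ => ?_
    simp only [Polynomial.eval_mul, Polynomial.eval_pow, Polynomial.eval_X, Polynomial.eval_add,
      Polynomial.eval_C]
    rw [hP2, add_zero]
    ring
  have hfin := congrArg (fun Q : Polynomial ℂ => Q.eval S) hpoly
  simp only [Polynomial.eval_mul, hP1, Polynomial.eval_finsetSum, hP2, add_zero] at hfin
  rw [hfin]
  refine Finset.sum_eq_zero fun m _ => Finset.sum_eq_zero fun k _ => ?_
  rw [hvan (r m k) (q m k).totalDegree le_rfl, mul_zero, mul_zero]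

end Pool.Agent.H942.KC
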