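import Mathlib

set_option autoImplicit false

/-! The substitution `X_0 ↦ X_0 ^ e` and the projections to the components of the exponents of
`X_0` modulo `e`. -/

namespace Pool.Agent.H942.KC

open MvPolynomial

variable {n : ℕ}

theorem mcongr {m m' : Fin n →₀ ℕ} {a a' : ℂ} (h : ∀ j, m j = m' j) (ha : a = a') :
    (monomial m a : MvPolynomial (Fin n) ℂ) = monomial m' a' := by
  rw [Finsupp.ext h, ha]

/-- The substitution `X_i₀ ↦ X_i₀ ^ e`. -/
noncomputable def io (e : ℕ) (i0 : Fin n) : MvPolynomial (Fin n) ℂ →ₐ[ℂ] MvPolynomial (Fin n) ℂ :=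
  aeval fun j => if j = i0 then X j ^ e else X j

/-- The component of the monomials whose exponent of `X_i₀` is `e k + t`, with the exponent replaced
by `k`. -/
noncomputable def pr (e : ℕ) (i0 : Fin n) (t : ℕ) :
    MvPolynomial (Fin n) ℂ →ₗ[ℂ] MvPolynomial (Fin n) ℂ :=
  (basisMonomials (Fin n) ℂ).constr ℂ fun m =>
    if m i0 % e = t then monomial (m.update i0 (m i0 / e)) 1 else 0

variable {e : ℕ} {i0 : Fin n} {t : ℕ}

theorem pr_monomial (m : Fin n →₀ ℕ) (a : ℂ) :
    pr e i0 t (monomial m a) = if m i0 % e = t then monomial (m.update i0 (m i0 / e)) a else 0 := by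
  have h1 : monomial m a = a • (basisMonomials (Fin n) ℂ) m := by
    rw [coe_basisMonomials, smul_monomial, smul_eq_mul, mul_one]
  rw [h1, map_smul, pr, Module.Basis.constr_basis]
  split_ifs
  · rw [smul_monomial, smul_eq_mul, mul_one]
  · rw [smul_zero]

theorem io_X_self : io e i0 (X i0) = X i0 ^ e := by
  rw [io, aeval_X, if_pos rfl]

theorem io_X_ne {j : Fin n} (h : j ≠ i0) : io e i0 (X j) = X j := by
  rw [io, aeval_X, if_neg h]

theorem io_C (c : ℂ) : io e i0 (C c) = C c := by
  rw [← MvPolynomial.algebraMap_eq, AlgHom.commutes]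

theorem io_monomial (m : Fin n →₀ ℕ) (a : ℂ) :
    io e i0 (monomial m a) = monomial (m.update i0 (e * m i0)) a := by
  rw [io, aeval_monomial, monomial_eq, Finsupp.prod_fintype _ _ (fun _ => by simp),
    Finsupp.prod_fintype _ _ (fun _ => by simp), MvPolynomial.algebraMap_eq]
  congr 1
  refine Finset.prod_congr rfl fun j _ => ?_
  by_cases h : j = i0
  · subst h
    rw [if_pos rfl, Finsupp.update_apply, if_pos rfl, ← pow_mul]
  · rw [if_neg h, Finsupp.update_apply, if_neg h]

theorem mv_ind {P : MvPolynomial (Fin n) ℂ → Prop} (h1 : ∀ m a, P (monomial m a))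
    (h2 : ∀ p q, P p → P q → P (p + q)) (p : MvPolynomial (Fin n) ℂ) : P p :=
  MvPolynomial.induction_on' p h1 h2

theorem pr_io_mul (he : 0 < e) (g h : MvPolynomial (Fin n) ℂ) :
    pr e i0 t (io e i0 g * h) = g * pr e i0 t h := by
  induction g using mv_ind with
  | h1 m a =>
    induction h using mv_ind with
    | h1 m' a' =>
      rw [io_monomial, monomial_mul, pr_monomial, pr_monomial]
      have e1 : (m.update i0 (e * m i0) + m') i0 = e * m i0 + m' i0 := by
        rw [Finsupp.add_apply, Finsupp.update_apply, if_pos rfl]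
      have e2 : (e * m i0 + m' i0) % e = m' i0 % e := Nat.mul_add_mod _ _ _
      have e3 : (e * m i0 + m' i0) / e = m i0 + m' i0 / e := Nat.mul_add_div he _ _
      rw [e1, e2, e3]
      split_ifs
      · rw [monomial_mul]
        refine mcongr (fun j => ?_) rfl
        rw [Finsupp.add_apply, Finsupp.update_apply, Finsupp.update_apply, Finsupp.add_apply,
          Finsupp.update_apply]
        split_ifs with h
        · rw [h]
        · rfl
      · rw [mul_zero]
    | h2 p q hp hq => rw [mul_add, map_add, map_add, hp, hq, mul_add]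
  | h2 p q hp hq => rw [map_add, add_mul, map_add, hp, hq, add_mul]

theorem pr_one : pr e i0 0 (1 : MvPolynomial (Fin n) ℂ) = 1 := by
  have h : (1 : MvPolynomial (Fin n) ℂ) = monomial 0 1 := rfl
  rw [h, pr_monomial, Finsupp.coe_zero, Pi.zero_apply, Nat.zero_mod, if_pos rfl, Nat.zero_div]
  refine mcongr (fun j => ?_) rfl
  rw [Finsupp.update_apply]
  split_ifs <;> rfl

theorem pr_io (he : 0 < e) (g : MvPolynomial (Fin n) ℂ) : pr e i0 0 (io e i0 g) = g := by
  have := pr_io_mul (i0 := i0) (t := 0) he g 1
  rwa [mul_one, pr_one, mul_one] at this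

theorem X_pow_mul_monomial (b : ℕ) (m : Fin n →₀ ℕ) (a : ℂ) :
    (X i0 : MvPolynomial (Fin n) ℂ) ^ b * monomial m a =
      monomial (m.update i0 (m i0 + b)) a := by
  rw [X_pow_eq_monomial, monomial_mul, one_mul]
  refine mcongr (fun j => ?_) rfl
  rw [Finsupp.add_apply, Finsupp.update_apply, Finsupp.single_apply]
  split_ifs with h1 h2 h2
  · rw [h1, add_comm]
  · exact absurd h1.symm h2
  · exact absurd h2.symm h1
  · rw [zero_add]

/-- `X_0 ^ b h` has a component divisible by `X_0 ^ ⌈b / e⌉`. -/
theorem pr_X_pow_dvd (he : 0 < e) (b : ℕ) (h : MvPolynomial (Fin n) ℂ) :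
    (X i0 : MvPolynomial (Fin n) ℂ) ^ ((b + (e - 1)) / e) ∣ pr e i0 0 (X i0 ^ b * h) := by
  induction h using mv_ind with
  | h1 m a =>
    rw [X_pow_mul_monomial, pr_monomial]
    split_ifs with h
    · rw [Finsupp.update_apply, if_pos rfl] at h ⊢
      have h2 : (b + (e - 1)) / e ≤ (m i0 + b) / e := by
        obtain ⟨k, hk⟩ := Nat.dvd_of_mod_eq_zero h
        rw [hk, Nat.mul_div_cancel_left _ he]
        rw [Nat.div_le_iff_le_mul_add_pred he]
        nlinarith
      refine ⟨monomial (m.update i0 ((m i0 + b) / e - (b + (e - 1)) / e)) a, ?_⟩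
      rw [X_pow_mul_monomial]
      refine mcongr (fun j => ?_) rfl
      simp only [Finsupp.update_apply, if_true]
      split_ifs with hj
      · omega
      · rfl
    · exact dvd_zero _
  | h2 p q hp hq =>
    rw [mul_add, map_add]
    exact dvd_add hp hq

theorem pr_pderiv_ne {j : Fin n} (hj : j ≠ i0) (h : MvPolynomial (Fin n) ℂ) :
    pr e i0 t (pderiv j h) = pderiv j (pr e i0 t h) := by
  induction h using mv_ind with
  | h1 m a =>
    have e1 : (m - Finsupp.single j 1 : Fin n →₀ ℕ) i0 = m i0 := by
      rw [Finsupp.tsub_apply, Finsupp.single_eq_of_ne hj.symm, Nat.sub_zero]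
    rw [pderiv_monomial, pr_monomial, pr_monomial, e1]
    split_ifs
    · rw [pderiv_monomial, Finsupp.update_apply, if_neg hj]
      refine mcongr (fun k => ?_) rfl
      rw [Finsupp.update_apply, Finsupp.tsub_apply, Finsupp.tsub_apply, Finsupp.update_apply]
      split_ifs with hk
      · rw [hk, Finsupp.single_eq_of_ne hj.symm, Nat.sub_zero]
      · rfl
    · rw [map_zero]
  | h2 p q hp hq => rw [map_add, map_add, map_add, map_add, hp, hq]

theorem pr_zero_pderiv (he : 2 ≤ e) (h : MvPolynomial (Fin n) ℂ) :
    pr e i0 0 (pderiv i0 h) = pr e i0 1 h + (e : ℂ) • (X i0 * pderiv i0 (pr e i0 1 h)) := by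
  induction h using mv_ind with
  | h1 m a =>
    have e1 : (m - Finsupp.single i0 1 : Fin n →₀ ℕ) i0 = m i0 - 1 := by
      rw [Finsupp.tsub_apply, Finsupp.single_eq_same]
    rw [pderiv_monomial, pr_monomial, pr_monomial, e1]
    by_cases h0 : m i0 = 0
    · have h1 : ¬ m i0 % e = 1 := by
        rw [h0, Nat.zero_mod]
        omega
      rw [if_neg h1, map_zero, mul_zero, smul_zero, add_zero]
      split_ifs
      · rw [h0, Nat.cast_zero, mul_zero, monomial_zero]
      · rfl
    · by_cases h1 : m i0 % e = 1
      · have h2 : (m i0 - 1) % e = 0 := by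
          have h3 := Nat.div_add_mod (m i0) e
          rw [h1] at h3
          have h4 : m i0 - 1 = e * (m i0 / e) := by omega
          rw [h4, Nat.mul_mod_right]
        have h3 : (m i0 - 1) / e = m i0 / e := by
          have h3 := Nat.div_add_mod (m i0) e
          rw [h1] at h3
          have h4 : m i0 - 1 = e * (m i0 / e) := by omega
          rw [h4, Nat.mul_div_cancel_left _ (by omega : 0 < e)]
        rw [if_pos h2, if_pos h1, h3]
        have h5 : (m i0 : ℂ) = 1 + e * ((m i0 / e : ℕ) : ℂ) := by
          have h3 := Nat.div_add_mod (m i0) e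
          rw [h1] at h3
          have h6 : ((m i0 : ℕ) : ℂ) = ((e * (m i0 / e) + 1 : ℕ) : ℂ) := by rw [h3]
          rw [h6]
          push_cast
          ring
        have h7 : (X i0 : MvPolynomial (Fin n) ℂ) * pderiv i0 (monomial (m.update i0 (m i0 / e)) a) =
            ((m i0 / e : ℕ) : ℂ) • monomial (m.update i0 (m i0 / e)) a := by
          rw [pderiv_monomial, Finsupp.update_apply, if_pos rfl, smul_monomial, smul_eq_mul,
            ← pow_one (X i0), X_pow_mul_monomial]
          by_cases h8 : m i0 / e = 0
          · rw [h8, Nat.cast_zero, mul_zero, zero_mul, monomial_zero, monomial_zero]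
          · refine mcongr (fun k => ?_) (mul_comm _ _)
            simp only [Finsupp.update_apply, Finsupp.tsub_apply, if_true, Finsupp.single_eq_same]
            by_cases hk : k = i0
            · rw [if_pos hk, if_pos hk]
              generalize m i0 / e = q at h8
              omega
            · rw [if_neg hk, if_neg hk, Finsupp.single_eq_of_ne hk, Nat.sub_zero]
        rw [h7, smul_smul, ← one_smul ℂ (monomial (m.update i0 (m i0 / e)) a), smul_smul,
          ← add_smul, mul_one, ← h5, smul_monomial, smul_eq_mul]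
        have h8 : (m - Finsupp.single i0 1 : Fin n →₀ ℕ).update i0 (m i0 / e) =
            m.update i0 (m i0 / e) := by
          ext k
          rw [Finsupp.update_apply, Finsupp.update_apply, Finsupp.tsub_apply]
          by_cases hk : k = i0
          · rw [if_pos hk, if_pos hk]
          · rw [if_neg hk, if_neg hk, Finsupp.single_eq_of_ne hk, Nat.sub_zero]
        rw [h8, mul_comm]
      · have h2 : ¬ (m i0 - 1) % e = 0 := by
          intro h2
          apply h1
          obtain ⟨k, hk⟩ := Nat.dvd_of_mod_eq_zero h2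
          have h3 : m i0 = e * k + 1 := by omega
          rw [h3, Nat.mul_add_mod, Nat.mod_eq_of_lt (by omega)]
        rw [if_neg h2, if_neg h1, map_zero, mul_zero, smul_zero, add_zero]
  | h2 p q hp hq =>
    rw [map_add, map_add, map_add, map_add, hp, hq, mul_add, smul_add]
    abel

theorem pr_last_pderiv (he : 2 ≤ e) (h : MvPolynomial (Fin n) ℂ) :
    pr e i0 (e - 1) (pderiv i0 h) = (e : ℂ) • pderiv i0 (pr e i0 0 h) := by
  induction h using mv_ind with
  | h1 m a =>
    have e1 : (m - Finsupp.single i0 1 : Fin n →₀ ℕ) i0 = m i0 - 1 := by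
      rw [Finsupp.tsub_apply, Finsupp.single_eq_same]
    rw [pderiv_monomial, pr_monomial, pr_monomial, e1]
    by_cases h0 : m i0 = 0
    · have h1 : m i0 % e = 0 := by rw [h0, Nat.zero_mod]
      rw [if_pos h1, pderiv_monomial, Finsupp.update_apply, if_pos rfl, h0, Nat.zero_div,
        Nat.cast_zero, mul_zero, monomial_zero, monomial_zero, smul_zero]
      split_ifs <;> rfl
    · by_cases h1 : m i0 % e = 0
      · obtain ⟨k, hk⟩ := Nat.dvd_of_mod_eq_zero h1
        have hk0 : 1 ≤ k := by
          rcases Nat.eq_zero_or_pos k with h | h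
          · rw [h, mul_zero] at hk
            exact absurd hk h0
          · exact h
        have h2 : m i0 - 1 = e * (k - 1) + (e - 1) := by
          obtain ⟨k', rfl⟩ : ∃ k', k = k' + 1 := ⟨k - 1, by omega⟩
          rw [hk, Nat.add_sub_cancel, mul_add, mul_one]
          omega
        have h3 : (m i0 - 1) % e = e - 1 := by
          rw [h2, Nat.mul_add_mod, Nat.mod_eq_of_lt (by omega)]
        have h4 : (m i0 - 1) / e = k - 1 := by
          rw [h2, Nat.mul_add_div (by omega), Nat.div_eq_of_lt (by omega), add_zero]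
        have h5 : m i0 / e = k := by rw [hk, Nat.mul_div_cancel_left _ (by omega)]
        rw [if_pos h3, if_pos h1, h4, h5, pderiv_monomial, Finsupp.update_apply, if_pos rfl,
          smul_monomial, smul_eq_mul]
        have h6 : (m i0 : ℂ) = e * k := by
          have : ((m i0 : ℕ) : ℂ) = ((e * k : ℕ) : ℂ) := by rw [hk]
          rw [this]
          push_cast
          rfl
        rw [h6]
        have h7 : (m - Finsupp.single i0 1 : Fin n →₀ ℕ).update i0 (k - 1) =
            m.update i0 k - Finsupp.single i0 1 := by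
          ext j
          rw [Finsupp.update_apply, Finsupp.tsub_apply, Finsupp.tsub_apply, Finsupp.update_apply]
          by_cases hj : j = i0
          · rw [if_pos hj, if_pos hj, hj, Finsupp.single_eq_same]
          · rw [if_neg hj, if_neg hj]
        rw [h7]
        exact mcongr (fun _ => rfl) (by ring)
      · have h2 : ¬ (m i0 - 1) % e = e - 1 := by
          intro h2
          apply h1
          have h3 := Nat.div_add_mod (m i0 - 1) e
          rw [h2] at h3
          have h4 : m i0 = e * ((m i0 - 1) / e + 1) := by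
            rw [mul_add, mul_one]
            omega
          rw [h4, Nat.mul_mod_right]
        rw [if_neg h2, if_neg h1, map_zero, smul_zero]
  | h2 p q hp hq =>
    rw [map_add, map_add, map_add, map_add, hp, hq, smul_add]

theorem pr_last_X_mul (he : 2 ≤ e) (h : MvPolynomial (Fin n) ℂ) :
    pr e i0 (e - 1) (X i0 ^ (e - 1) * h) = pr e i0 0 h := by
  induction h using mv_ind with
  | h1 m a =>
    rw [X_pow_mul_monomial, pr_monomial, pr_monomial, Finsupp.update_apply, if_pos rfl]
    by_cases h1 : m i0 % e = 0
    · obtain ⟨k, hk⟩ := Nat.dvd_of_mod_eq_zero h1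
      have h3 : (m i0 + (e - 1)) % e = e - 1 := by
        rw [hk, Nat.mul_add_mod, Nat.mod_eq_of_lt (by omega)]
      have h4 : (m i0 + (e - 1)) / e = k := by
        rw [hk, Nat.mul_add_div (by omega), Nat.div_eq_of_lt (by omega), add_zero]
      have h5 : m i0 / e = k := by rw [hk, Nat.mul_div_cancel_left _ (by omega)]
      rw [if_pos h3, if_pos h1, h4, h5]
      refine mcongr (fun j => ?_) rfl
      rw [Finsupp.update_apply, Finsupp.update_apply, Finsupp.update_apply]
      split_ifs <;> rfl
    · have h2 : ¬ (m i0 + (e - 1)) % e = e - 1 := by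
        intro h2
        apply h1
        have h3 := Nat.div_add_mod (m i0 + (e - 1)) e
        rw [h2] at h3
        have h4 : m i0 = e * ((m i0 + (e - 1)) / e) := by omega
        rw [h4, Nat.mul_mod_right]
      rw [if_neg h2, if_neg h1]
  | h2 p q hp hq => rw [mul_add, map_add, map_add, hp, hq]

theorem pr_zero_X_mul (he : 2 ≤ e) (h : MvPolynomial (Fin n) ℂ) :
    pr e i0 0 (X i0 ^ (e - 1) * h) = X i0 * pr e i0 1 h := by
  induction h using mv_ind with
  | h1 m a =>
    rw [X_pow_mul_monomial, pr_monomial, pr_monomial, Finsupp.update_apply, if_pos rfl]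
    by_cases h1 : m i0 % e = 1
    · have h3 := Nat.div_add_mod (m i0) e
      rw [h1] at h3
      have h4 : m i0 + (e - 1) = e * (m i0 / e + 1) := by
        rw [mul_add, mul_one]
        omega
      have h5 : (m i0 + (e - 1)) % e = 0 := by rw [h4, Nat.mul_mod_right]
      have h6 : (m i0 + (e - 1)) / e = m i0 / e + 1 := by
        rw [h4, Nat.mul_div_cancel_left _ (by omega)]
      rw [if_pos h5, if_pos h1, h6, ← pow_one (X i0), X_pow_mul_monomial]
      refine mcongr (fun j => ?_) rfl
      simp only [Finsupp.update_apply, if_true]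
      by_cases hj : j = i0
      · rw [if_pos hj, if_pos hj]
      · rw [if_neg hj, if_neg hj, if_neg hj, if_neg hj]
    · have h2 : ¬ (m i0 + (e - 1)) % e = 0 := by
        intro h2
        apply h1
        obtain ⟨k, hk⟩ := Nat.dvd_of_mod_eq_zero h2
        have hk0 : 1 ≤ k := by
          rcases Nat.eq_zero_or_pos k with h | h
          · rw [h, mul_zero] at hk
            omega
          · exact h
        obtain ⟨k', rfl⟩ : ∃ k', k = k' + 1 := ⟨k - 1, by omega⟩
        rw [mul_add, mul_one] at hk
        have h4 : m i0 = e * k' + 1 := by omega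
        rw [h4, Nat.mul_add_mod, Nat.mod_eq_of_lt (by omega)]
      rw [if_neg h2, if_neg h1, mul_zero]
  | h2 p q hp hq => rw [mul_add, map_add, map_add, hp, hq, mul_add]

end Pool.Agent.H942.KC
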