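import Pool.Agent.H942.KC.Gen3
import Pool.Graph.R_pool_sql_team_seeded_5cf16337.K3h15.DM.DD
import Pool.Graph.R_pool_sql_team_seeded_5cf16337.K3h15.DM.Fun
import Pool.Graph.R_pool_sql_team_seeded_5cf16337.K3h15.DM.Mat
import Pool.Graph.R_pool_sql_team_seeded_5cf16337.K3h15.DM.V1
import Pool.Graph.R_pool_sql_team_seeded_5cf16337.K3h15.DM.V2
import Pool.Graph.R_pool_sql_team_seeded_5cf16337.K3h7.DM.Adj

set_option autoImplicit false

/-! The roots of the b-functions of the Kummer covers. -/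

namespace Pool.Agent.H942.KC

open MvPolynomial
open Pool.Agent.K3h15.DM
open Pool.Agent.H628R4.TP (weylS IsBFunction)

variable {n : ℕ} {e : ℕ}

theorem exists_l' {DD : Fin n → Fin n → (Rx n →ₗ[ℂ] Rx n)} (κ α : ℂ) (N : ℕ) {p : Rx n}
    (hp : constantCoeff p ≠ 0) : ∃ l : ℝ, 0 < l ∧ Ex DD l N κ α p ≠ 0 := by
  obtain ⟨Q2, hQ2, hQ2'⟩ := Ex_l DD N κ α p
  have hQ2n : Q2 ≠ 0 := by
    intro h
    rw [h, Polynomial.eval_zero] at hQ2'
    exact hp hQ2'.symm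
  obtain ⟨l, hl, _, hl2⟩ := exists_l (one_ne_zero (α := Polynomial ℂ)) hQ2n
  rw [hQ2] at hl2
  exact ⟨l, hl, hl2⟩

/-- The polynomial `F(X_0 ^ e, X_1, …) ^ a X_0 ^ b ∏ h(z_j) ^ β_j`. -/
noncomputable def kum (n : ℕ) (hn : 0 < n) (e : ℕ) (F : MvPolynomial (Fin n) ℂ) (a b r : ℕ)
    (z : Fin r → ℂ) (β : Fin r → ℕ) : MvPolynomial (Fin n) ℂ :=
  io e (⟨0, hn⟩ : Fin n) F ^ a * X (⟨0, hn⟩ : Fin n) ^ b *
    ∏ j, io e (⟨0, hn⟩ : Fin n) (hz n (z j)) ^ β j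

variable {F : MvPolynomial (Fin n) ℂ} {a b r : ℕ} {z : Fin r → ℂ} {β : Fin r → ℕ}
  {c : Polynomial ℂ}

theorem io_prod (i0 : Fin n) (s : Finset (Fin r)) :
    ∏ j ∈ s, io e i0 (hz n (z j)) ^ β j = io e i0 (∏ j ∈ s, hz n (z j) ^ β j) := by
  rw [map_prod]
  exact Finset.prod_congr rfl fun j _ => (map_pow _ _ _).symm

theorem cc_u (w : ℂ) (s : Finset (Fin r)) (hw : ∀ j ∈ s, z j ≠ w) (M : ℕ) :
    constantCoeff (sh n w ((∏ j ∈ s, hz n (z j) ^ β j) ^ M)) ≠ 0 := by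
  rw [map_pow, map_pow, map_prod, map_prod]
  refine pow_ne_zero _ (Finset.prod_ne_zero_iff.mpr fun j hj => ?_)
  rw [map_pow, map_pow, cc_sh_hz]
  exact pow_ne_zero _ (pow_ne_zero _ (sub_ne_zero.mpr (hw j hj)))

/-- The free clusters. -/
theorem roots_free (hn : 0 < n) (hF : IsDisc n F) (ha : 1 ≤ a) (he : 2 ≤ e)
    (hz0 : ∀ j, z j ≠ 0) (hc : IsBFunction (kum n hn e F a b r z β) c) {m i : ℕ} (hm : 2 ≤ m)
    (hmn : m ≤ n) (hi : i < a) : c.eval (-(1 / 2 + 1 / (m : ℂ) + i) / a) = 0 := by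
  obtain ⟨DD, hDD⟩ := t_DD n
  have hExp : StmExp := t_Exp t_L t_Dl
  have hD2 := sym_Dl2 hF
  have hu0 : (∏ j, hz n (z j) ^ β j) ≠ 0 :=
    Finset.prod_ne_zero_iff.mpr fun j _ => pow_ne_zero _ (hz_ne n _)
  rw [kum, io_prod] at hc
  obtain ⟨M, hM⟩ := gen0 hn hDD t_L t_V2 t_Mat t_Fun hExp t_Pol t_Adj hF ha he hu0 hc
  have ha0 : (a : ℂ) ≠ 0 := by
    have : a ≠ 0 := by omega
    exact_mod_cast this
  have hm0 : (m : ℂ) ≠ 0 := by
    have : m ≠ 0 := by omega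
    exact_mod_cast this
  set S0 : ℂ := -(1 / 2 + 1 / (m : ℂ) + i) / a with hS0
  have hκ : 1 + ((a * S0 + 1 / 2) + i) * m = 0 := by
    rw [hS0]
    field_simp
    ring
  obtain ⟨l, hl, hne⟩ := exists_l' (DD := DD) (a * S0 + 1 / 2)
    (b * (S0 / e) + (1 / (e : ℂ) - 1)) (sh n 0 ((∏ j, hz n (z j) ^ β j) ^ M)).totalDegree
    (cc_u (n := n) (β := β) 0 Finset.univ (fun j _ => hz0 j) M)
  have h := hM l hl _ le_rfl S0 fun r' N' hN' =>
    van_one hDD t_L t_V1 t_Fun hExp t_Pol hD2 hl hm hmn hi hκ (sym_sh n 0 r') hN'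
  exact (mul_eq_zero.mp h).resolve_right hne

/-- The clusters at the ramified point. -/
theorem roots_ram (hn : 0 < n) (hF : IsDisc n F) (ha : 1 ≤ a) (he : 2 ≤ e)
    (hz0 : ∀ j, z j ≠ 0) (hc : IsBFunction (kum n hn e F a b r z β) c) {m i i' : ℕ} (hm : 1 ≤ m)
    (hmn : m ≤ n) (hi : i ≤ a) (hi' : i' ≤ (b + (e - 1)) / e)
    (hii : i' < (b + (e - 1)) / e ∨ (2 ≤ m ∧ i < a)) :
    c.eval (-((1 / (e : ℂ) + ((m : ℂ) - 1) / 2) + i * (m - 1) + i') / (a * (m - 1) + b / e)) =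
      0 := by
  obtain ⟨DD, hDD⟩ := t_DD n
  have hExp : StmExp := t_Exp t_L t_Dl
  have hD2 := sym_Dl2 hF
  have hu0 : (∏ j, hz n (z j) ^ β j) ≠ 0 :=
    Finset.prod_ne_zero_iff.mpr fun j _ => pow_ne_zero _ (hz_ne n _)
  rw [kum, io_prod] at hc
  obtain ⟨M, hM⟩ := gen0 hn hDD t_L t_V2 t_Mat t_Fun hExp t_Pol t_Adj hF ha he hu0 hc
  have he0 : (e : ℂ) ≠ 0 := by
    have : e ≠ 0 := by omega
    exact_mod_cast this
  have hden : ((a : ℂ) * (m - 1) + b / e) ≠ 0 := by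
    have h1 : ((a * (m - 1) * e + b : ℕ) : ℂ) ≠ 0 := by
      have : a * (m - 1) * e + b ≠ 0 := by
        rcases Nat.eq_zero_or_pos b with hb | hb
        · rcases hii with h | h
          · rw [hb, zero_add, Nat.div_eq_of_lt (by omega)] at h
            omega
          · have : 0 < a * (m - 1) * e := Nat.mul_pos (Nat.mul_pos ha (by omega)) (by omega)
            omega
        · omega
      exact_mod_cast this
    rw [Nat.cast_add, Nat.cast_mul, Nat.cast_mul, Nat.cast_sub hm, Nat.cast_one] at h1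
    intro h2
    apply h1
    field_simp at h2
    linear_combination h2
  set S0 : ℂ := -((1 / (e : ℂ) + ((m : ℂ) - 1) / 2) + i * (m - 1) + i') /
    (a * (m - 1) + b / e) with hS0
  have hκ : ((b * (S0 / e) + (1 / (e : ℂ) - 1)) + i') + 1 +
      ((a * S0 + 1 / 2) + i) * (m - 1) = 0 := by
    have h1 : S0 * ((a : ℂ) * (m - 1) + b / e) =
        -((1 / (e : ℂ) + ((m : ℂ) - 1) / 2) + i * (m - 1) + i') := by
      rw [hS0, div_mul_cancel₀ _ hden]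
    linear_combination h1
  obtain ⟨l, hl, hne⟩ := exists_l' (DD := DD) (a * S0 + 1 / 2)
    (b * (S0 / e) + (1 / (e : ℂ) - 1)) (sh n 0 ((∏ j, hz n (z j) ^ β j) ^ M)).totalDegree
    (cc_u (n := n) (β := β) 0 Finset.univ (fun j _ => hz0 j) M)
  have h := hM l hl _ le_rfl S0 fun r' N' hN' =>
    van_two hDD t_L t_V2 t_Fun hExp t_Pol hD2 hl hm hmn hi hi' hii hκ (sym_sh n 0 r') hN'
  exact (mul_eq_zero.mp h).resolve_right hne

/-- The clusters at the marked points. -/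
theorem roots_marked (hn : 0 < n) (hF : IsDisc n F) (ha : 1 ≤ a) (he : 2 ≤ e)
    (hz0 : ∀ j, z j ≠ 0) (hzi : Function.Injective z)
    (hc : IsBFunction (kum n hn e F a b r z β) c) {j : Fin r} (hβ : 1 ≤ β j) {m i i' : ℕ}
    (hm : 1 ≤ m) (hmn : m ≤ n) (hi : i ≤ a) (hi' : i' ≤ β j)
    (hii : i' < β j ∨ (2 ≤ m ∧ i < a)) :
    c.eval (-(((m : ℂ) + 1) / 2 + i * (m - 1) + i') / (a * (m - 1) + β j)) = 0 := by
  obtain ⟨DD, hDD⟩ := t_DD n
  have hExp : StmExp := t_Exp t_L t_Dl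
  have hD2 := sym_Dl2 hF
  set u : MvPolynomial (Fin n) ℂ := ∏ k ∈ Finset.univ.erase j, hz n (z k) ^ β k with hu
  have hu0 : u ≠ 0 := Finset.prod_ne_zero_iff.mpr fun j _ => pow_ne_zero _ (hz_ne n _)
  have hc' : IsBFunction (io e (⟨0, hn⟩ : Fin n) F ^ a *
      io e (⟨0, hn⟩ : Fin n) (hz n (z j)) ^ β j *
      (X (⟨0, hn⟩ : Fin n) ^ b * io e (⟨0, hn⟩ : Fin n) u)) c := by
    rw [kum, ← Finset.mul_prod_erase Finset.univ _ (Finset.mem_univ j), io_prod, ← hu] at hc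
    have h : io e (⟨0, hn⟩ : Fin n) F ^ a * X (⟨0, hn⟩ : Fin n) ^ b *
        (io e (⟨0, hn⟩ : Fin n) (hz n (z j)) ^ β j * io e (⟨0, hn⟩ : Fin n) u) =
        io e (⟨0, hn⟩ : Fin n) F ^ a * io e (⟨0, hn⟩ : Fin n) (hz n (z j)) ^ β j *
        (X (⟨0, hn⟩ : Fin n) ^ b * io e (⟨0, hn⟩ : Fin n) u) := by ring
    rw [← h]
    exact hc
  obtain ⟨M, hM⟩ := genz hn hDD t_Mat t_Fun hExp t_Pol t_Adj hF (z j) ha hβ he hu0 hc'
  have hden : ((a : ℂ) * (m - 1) + β j) ≠ 0 := by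
    have h1 : ((a * (m - 1) + β j : ℕ) : ℂ) ≠ 0 := by
      have : a * (m - 1) + β j ≠ 0 := by omega
      exact_mod_cast this
    rw [Nat.cast_add, Nat.cast_mul, Nat.cast_sub hm, Nat.cast_one] at h1
    exact h1
  set S0 : ℂ := -(((m : ℂ) + 1) / 2 + i * (m - 1) + i') / (a * (m - 1) + β j) with hS0
  have hκ : (β j * S0 + i') + 1 + ((a * S0 + 1 / 2) + i) * (m - 1) = 0 := by
    have h1 : S0 * ((a : ℂ) * (m - 1) + β j) = -(((m : ℂ) + 1) / 2 + i * (m - 1) + i') := by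
      rw [hS0, div_mul_cancel₀ _ hden]
    linear_combination h1
  have hcc : constantCoeff (sh n (z j) (X (⟨0, hn⟩ : Fin n) ^ (b * M) * u ^ M)) ≠ 0 := by
    rw [map_mul, map_mul]
    refine mul_ne_zero ?_ (cc_u (n := n) (β := β) (z j) _ (fun k hk h => ?_) M)
    · rw [map_pow, map_pow, ← hz_zero hn, cc_sh_hz]
      exact pow_ne_zero _ (pow_ne_zero _ (sub_ne_zero.mpr (hz0 j).symm))
    · exact (Finset.ne_of_mem_erase hk) (hzi h)
  obtain ⟨l, hl, hne⟩ := exists_l' (DD := DD) (a * S0 + 1 / 2) (β j * S0)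
    (sh n (z j) (X (⟨0, hn⟩ : Fin n) ^ (b * M) * u ^ M)).totalDegree hcc
  have h := hM l hl _ le_rfl S0 fun r' N' hN' =>
    van_two hDD t_L t_V2 t_Fun hExp t_Pol hD2 hl hm hmn hi hi' hii hκ (sym_sh n (z j) r') hN'
  exact (mul_eq_zero.mp h).resolve_right hne

end Pool.Agent.H942.KC
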